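import Pool.Agent.H78.PB.Stm2
import Pool.Agent.N892.BW.CONV
import Pool.Agent.N892.BW.FOUR
import Pool.Agent.N892.BW.RZ

/-!
# Project PB, part DBL: doubling of the exponent in Pitt's inequality (helper83)
-/

set_option autoImplicit false
set_option linter.all false

open MeasureTheory ENNReal Filter Topology Complex Set
open scoped ComplexConjugate FourierTransform Convolution

namespace Pool.Agent.H83PB.DBL

open Pool.Agent.N892.BW Pool.Agent.H78.PB Pool.Agent.N892.BW.CONV Pool.Agent.N892.BW.FOUR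

/-- Hoelder's inequality with a weight -/
theorem hol {w g : ℂ → ℝ≥0∞} (hw : Measurable w) (hg : Measurable g) {p : ℝ} (hp : 1 < p) :
    (∫⁻ a, w a * g a) ^ p ≤ (∫⁻ a, w a) ^ (p - 1) * ∫⁻ a, w a * g a ^ p := by
  have hc : p.HolderConjugate (p / (p - 1)) := Real.HolderConjugate.conjExponent hp
  have hp0 : 0 < p := by linarith
  have hp1 : 0 < p - 1 := by linarith
  have h1 := ENNReal.lintegral_mul_le_Lp_mul_Lq (volume.withDensity w) hc
    hg.aemeasurable (measurable_const (a := (1 : ℝ≥0∞))).aemeasurable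
  have e1 : ∫⁻ a, (g * (fun _ : ℂ => (1 : ℝ≥0∞)) : ℂ → ℝ≥0∞) a ∂(volume.withDensity w) = ∫⁻ a, w a * g a := by
    rw [lintegral_withDensity_eq_lintegral_mul _ hw (by fun_prop)]
    simp
  have e2 : ∫⁻ a, g a ^ p ∂(volume.withDensity w) = ∫⁻ a, w a * g a ^ p := by
    rw [lintegral_withDensity_eq_lintegral_mul _ hw (by fun_prop)]
    simp
  have e3 : ∫⁻ a, (1 : ℝ≥0∞) ^ (p / (p - 1)) ∂(volume.withDensity w) = ∫⁻ a, w a := by
    rw [lintegral_withDensity_eq_lintegral_mul _ hw (by fun_prop)]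
    simp
  rw [e1, e2, e3] at h1
  have h2 := ENNReal.rpow_le_rpow h1 hp0.le
  refine h2.trans (le_of_eq ?_)
  rw [ENNReal.mul_rpow_of_nonneg _ _ hp0.le, ← ENNReal.rpow_mul, ← ENNReal.rpow_mul,
    one_div_mul_cancel hp0.ne', ENNReal.rpow_one, mul_comm]
  congr 2
  field_simp

theorem en {u : ℂ} (hu : u ≠ 0) (a : ℝ) : ‖u‖ₑ ^ a = ENNReal.ofReal (‖u‖ ^ a) := by
  rw [← ofReal_norm_eq_enorm, ENNReal.ofReal_rpow_of_pos (norm_pos_iff.2 hu)]

theorem t : P_DBL := by
  intro m K hm hK hP F hF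
  set x : ℝ := 1 / (2 * m) with hx
  have hm0 : 0 < m := by linarith
  have hx0 : 0 < x := by positivity
  have hxm : x * (2 * m) = 1 := by rw [hx]; field_simp
  have hx1 : x < 1 / 2 := by
    rw [hx]; exact one_div_lt_one_div_of_lt (by norm_num) (by linarith)
  have hRp : 0 < RB x x := by
    rw [RB_eq hx0 hx0 (by linarith)]
    have h1 := G_pos hx0 (by linarith)
    have h2 := G_pos (x := x + x) (by linarith) (by linarith)
    have := Real.pi_pos
    positivity
  have hRR : RB (2 - 2 * x) x = RB x x := by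
    rw [RB_eq hx0 hx0 (by linarith), RB_eq (by linarith) hx0 (by linarith),
      show 2 - 2 * x + x = 2 - x by ring, G_refl hx0 (by linarith),
      G_refl (x := 2 * x) (by linarith) (by linarith), show x + x = 2 * x by ring]
    have h1 := G_pos hx0 (by linarith)
    have h2 := G_pos (x := 2 * x) (by linarith) (by linarith)
    field_simp
  -- the convolution square
  set H := Hp F 1 with hH
  have hHn : Nice H := Hp_nice hF 1
  have hFm : Measurable F := hF.1
  have e0 : ∀ y : ℂ, ‖∫ u, F u * ex y u‖ₑ ^ (2 * (2 * m)) = ‖∫ u, H u * ex y u‖ₑ ^ (2 * m) := by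
    intro y
    rw [ex_four, ex_four, hH, Hp_four hF, enorm_pow, ← ENNReal.rpow_natCast, ← ENNReal.rpow_mul]
    norm_num
  simp_rw [e0]
  refine (hP H hHn).trans ?_
  set φ := ph x with hφ
  have hφm : Measurable φ := ph_meas x
  set k : ℂ → ℝ≥0∞ := fun u => ‖F u‖ₑ * ENNReal.ofReal (‖u‖ ^ (2 - x)) with hk
  have hkm : Measurable k := by
    rw [hk]; fun_prop
  have hf0 : (fun u => ‖F u‖ₑ) =ᵐ[volume] fun u => φ u * k u := by
    filter_upwards [ae_ne 0] with u hu
    have hu' : 0 < ‖u‖ := norm_pos_iff.2 hu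
    have e1 : ENNReal.ofReal (‖u‖ ^ (x - 2)) * ENNReal.ofReal (‖u‖ ^ (2 - x)) = 1 := by
      rw [← ENNReal.ofReal_mul (by positivity), ← Real.rpow_add hu']
      rw [show x - 2 + (2 - x) = 0 by ring, Real.rpow_zero, ENNReal.ofReal_one]
    rw [hk, hφ, ph]
    simp only
    calc ‖F u‖ₑ = ‖F u‖ₑ * 1 := (mul_one _).symm
      _ = _ := by rw [← e1]; ring
  set k' : ℂ → ℝ≥0∞ := fun u => k u ^ (2 * m) with hk'
  have hkm' : Measurable k' := hkm.pow_const _
  set Q : ℂ → ℝ≥0∞ := fun a => φ a * k' a ^ 2 with hQ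
  have hQm : Measurable Q := hφm.mul (hkm'.pow_const _)
  -- pointwise
  have h2 : ∀ v : ℂ, v ≠ 0 → ‖H v‖ₑ ^ (2 * m) * ‖v‖ₑ ^ (4 * m - 4) ≤
      ENNReal.ofReal (RB x x ^ (2 * m - 1) * ‖v‖ ^ (-(2 * x))) * cv Q φ v := by
    intro v hv
    have hv' : 0 < ‖v‖ := norm_pos_iff.2 hv
    have h3 : ‖H v‖ₑ ≤ ∫⁻ a, (φ a * φ (v - a)) * (k a * k (v - a)) := by
      refine (Hp_le F 1 v).trans (le_of_eq ?_)
      have := (it_congr hf0 0).2
      rw [zero_add] at this
      rw [this]
      show cv (fun u => φ u * k u) (fun u => φ u * k u) v = _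
      unfold cv
      refine lintegral_congr fun a => ?_
      ring
    have h4 := ENNReal.rpow_le_rpow h3 (show 0 ≤ 2 * m by linarith)
    have h5 := h4.trans (hol (w := fun a => φ a * φ (v - a)) (g := fun a => k a * k (v - a))
      (by fun_prop) (by fun_prop) (show 1 < 2 * m by linarith))
    have e1 : ∫⁻ a, φ a * φ (v - a) = ENNReal.ofReal (RB x x * ‖v‖ ^ (x + x - 2)) := by
      rw [← RZ.t x x hx0 hx0 (by linarith) v hv]
      rfl
    have e2 : ∫⁻ a, φ a * φ (v - a) * (k a * k (v - a)) ^ (2 * m) =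
        cv (fun a => φ a * k' a) (fun a => φ a * k' a) v := by
      unfold cv
      refine lintegral_congr fun a => ?_
      rw [ENNReal.mul_rpow_of_nonneg _ _ (by linarith), hk']
      ring
    rw [e1, e2] at h5
    have h6 := h5.trans (mul_le_mul_right (stepB hφm hkm' v) _)
    refine (mul_le_mul_left h6 _).trans (le_of_eq ?_)
    rw [en hv, ENNReal.ofReal_rpow_of_pos (by positivity), mul_right_comm,
      ← ENNReal.ofReal_mul (by positivity), Real.mul_rpow hRp.le (by positivity), ← Real.rpow_mul hv'.le,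
      mul_assoc, ← Real.rpow_add hv']
    have e3 : (x + x - 2) * (2 * m - 1) + (4 * m - 4) = -(2 * x) := by
      linear_combination 2 * hxm
    rw [e3]
  -- the inner integral
  have h5 : ∀ u : ℂ, u ≠ 0 → ∫⁻ v, ENNReal.ofReal (RB x x ^ (2 * m - 1) * ‖v‖ ^ (-(2 * x))) * φ (v - u) =
      ENNReal.ofReal (RB x x ^ (2 * m) * ‖u‖ ^ (-x)) := by
    intro u hu
    have hu' : 0 < ‖u‖ := norm_pos_iff.2 hu
    have e1 : ∫⁻ v, ENNReal.ofReal (RB x x ^ (2 * m - 1) * ‖v‖ ^ (-(2 * x))) * φ (v - u) =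
        ∫⁻ v, ENNReal.ofReal (RB x x ^ (2 * m - 1)) *
        (ENNReal.ofReal (‖v‖ ^ (2 - 2 * x - 2)) * ENNReal.ofReal (‖u - v‖ ^ (x - 2))) := by
      refine lintegral_congr fun v => ?_
      rw [hφ, ph, ENNReal.ofReal_mul (by positivity), norm_sub_rev v u,
        show 2 - 2 * x - 2 = -(2 * x) by ring]
      ring
    rw [e1, lintegral_const_mul' _ _ ENNReal.ofReal_ne_top,
      RZ.t (2 - 2 * x) x (by linarith) hx0 (by linarith) u hu, ← ENNReal.ofReal_mul (by positivity), hRR]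
    congr 1
    rw [← mul_assoc, ← Real.rpow_add_one hRp.ne']
    congr 2 <;> ring
  have hmain : ∫⁻ v, ‖H v‖ₑ ^ (2 * m) * ‖v‖ₑ ^ (4 * m - 4) ≤
      ENNReal.ofReal (RB x x ^ (2 * m)) * ∫⁻ u, ‖F u‖ₑ ^ (2 * (2 * m)) * ‖u‖ₑ ^ (4 * (2 * m) - 4) := by
    calc ∫⁻ v, ‖H v‖ₑ ^ (2 * m) * ‖v‖ₑ ^ (4 * m - 4)
        ≤ ∫⁻ v, ENNReal.ofReal (RB x x ^ (2 * m - 1) * ‖v‖ ^ (-(2 * x))) * cv Q φ v := by
          apply lintegral_mono_ae
          filter_upwards [ae_ne 0] with v hv using h2 v hv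
      _ = ∫⁻ v, ∫⁻ u, Q u * (ENNReal.ofReal (RB x x ^ (2 * m - 1) * ‖v‖ ^ (-(2 * x))) * φ (v - u)) := by
          refine lintegral_congr fun v => ?_
          unfold cv
          rw [← lintegral_const_mul _ (by fun_prop)]
          refine lintegral_congr fun u => ?_
          ring
      _ = ∫⁻ u, ∫⁻ v, Q u * (ENNReal.ofReal (RB x x ^ (2 * m - 1) * ‖v‖ ^ (-(2 * x))) * φ (v - u)) := by
          rw [lintegral_lintegral_swap]
          apply Measurable.aemeasurable
          unfold Function.uncurry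
          fun_prop
      _ = ∫⁻ u, Q u * ∫⁻ v, ENNReal.ofReal (RB x x ^ (2 * m - 1) * ‖v‖ ^ (-(2 * x))) * φ (v - u) := by
          refine lintegral_congr fun u => ?_
          rw [lintegral_const_mul _ (by fun_prop)]
      _ = ∫⁻ u, ENNReal.ofReal (RB x x ^ (2 * m)) * (‖F u‖ₑ ^ (2 * (2 * m)) * ‖u‖ₑ ^ (4 * (2 * m) - 4)) := by
          apply lintegral_congr_ae
          filter_upwards [ae_ne 0] with u hu
          have hu' : 0 < ‖u‖ := norm_pos_iff.2 hu
          rw [h5 u hu, en hu, ENNReal.ofReal_mul (by positivity)]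
          simp only [hQ, hk', hk, hφ, ph]
          rw [ENNReal.mul_rpow_of_nonneg _ _ (by linarith), mul_pow, ← ENNReal.rpow_natCast (_ ^ _),
            ← ENNReal.rpow_natCast (_ ^ _), ← ENNReal.rpow_mul, ← ENNReal.rpow_mul,
            ENNReal.ofReal_rpow_of_pos (by positivity), ← Real.rpow_mul hu'.le]
          push_cast
          have e6 : ENNReal.ofReal (‖u‖ ^ (4 * (2 * m) - 4)) = ENNReal.ofReal (‖u‖ ^ (x - 2)) *
              ENNReal.ofReal (‖u‖ ^ ((2 - x) * (2 * m * 2))) * ENNReal.ofReal (‖u‖ ^ (-x)) := by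
            rw [← ENNReal.ofReal_mul (by positivity), ← ENNReal.ofReal_mul (by positivity),
              ← Real.rpow_add hu', ← Real.rpow_add hu']
            congr 2
            linear_combination 2 * hxm
          rw [e6, show 2 * m * 2 = 2 * (2 * m) by ring]
          ring
      _ = _ := lintegral_const_mul' _ _ ENNReal.ofReal_ne_top
  refine (mul_le_mul_right hmain _).trans (le_of_eq ?_)
  rw [← mul_assoc, ← ENNReal.ofReal_mul (by positivity)]
  congr 2
  have hpi := Real.pi_pos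
  have hs : Real.sqrt (K * RB x x / Real.pi) ^ (2 * (2 * m)) = (K * RB x x / Real.pi) ^ (2 * m) := by
    rw [Real.sqrt_eq_rpow, ← Real.rpow_mul (by positivity)]
    congr 1
    ring
  rw [hs, Real.div_rpow (by positivity) hpi.le, Real.mul_rpow hK.le hRp.le,
    show 2 * (2 * m) = 2 * m + 2 * m by ring, Real.rpow_add hpi]
  have := Real.rpow_pos_of_pos hpi (2 * m)
  field_simp

end Pool.Agent.H83PB.DBL
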