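import Pool.Agent.H78.PB.Stm2
import Pool.Agent.N892.BW.FOUR

/-!
# Project PB, part PL4: Plancherel for the square of a Fourier integral (helper83)
-/

set_option autoImplicit false
set_option linter.all false

open MeasureTheory ENNReal Filter Topology Complex Set
open scoped ComplexConjugate FourierTransform Convolution

namespace Pool.Agent.H83PB.PL4

open Pool.Agent.N892.BW Pool.Agent.H78.PB Pool.Agent.N892.BW.FOUR

theorem ex_swap (u y : ℂ) : ex u y = ex (-y) u := by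
  rw [ex, ex]
  congr 3
  simp only [Complex.mul_im, Complex.conj_re, Complex.conj_im, Complex.neg_re, Complex.neg_im]
  ring

theorem t : P_PL4 := by
  intro F hF
  have hH := Hp_nice hF 1
  have hc : Continuous (𝓕 (Hp F 1)) :=
    VectorFourier.fourierIntegral_continuous (L := innerₗ ℂ) Real.continuous_fourierChar
      continuous_inner (nice_int hH)
  have e0 : ∫⁻ y, ‖hat F y‖ₑ ^ 4 = ∫⁻ y, ‖∫ u, F u * ex y u‖ₑ ^ 4 := by
    rw [← lintegral_neg_eq_self (fun y => ‖∫ u, F u * ex y u‖ₑ ^ 4)]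
    refine lintegral_congr fun y => ?_
    simp only [hat, ex_swap _ y]
  rw [e0]
  calc ∫⁻ y, ‖∫ u, F u * ex y u‖ₑ ^ 4 =
      ∫⁻ y, (fun ξ => ‖𝓕 (Hp F 1) ξ‖ₑ ^ 2) ((2 * Real.pi)⁻¹ • rt y) := by
        refine lintegral_congr fun y => ?_
        simp only
        rw [ex_four, Hp_four hF, enorm_pow, ← pow_mul]
    _ = ENNReal.ofReal ((2 * Real.pi) ^ 2) * ∫⁻ ξ, ‖𝓕 (Hp F 1) ξ‖ₑ ^ 2 :=
        scale _ (hc.enorm.measurable.pow_const _)
    _ = ENNReal.ofReal ((2 * Real.pi) ^ 2) * ∫⁻ u, ‖Hp F 1 u‖ₑ ^ 2 := by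
        rw [Pool.Agent.H153R4.plancherel _ (nice_int hH) (nice_memLp hH 2)]
    _ ≤ _ := le_rfl

end Pool.Agent.H83PB.PL4
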