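import Pool.Agent.H78.PB.Stm4

/-!
# Project PB, part CDB: doubling, in terms of the conjectured constants (helper83)
-/

set_option autoImplicit false
set_option linter.all false

open MeasureTheory ENNReal Filter Topology

namespace Pool.Agent.H83PB.CDB

open Pool.Agent.N892.BW Pool.Agent.H78.PB

theorem t (h : P_DBL) : C_CDB := by
  intro s r hs1 hs2 hr hP
  have hs0 : 0 < s := by linarith
  have a1 := Real.Gamma_pos_of_pos hs0
  have a2 := Real.Gamma_pos_of_pos (show 0 < 1 - s by linarith)
  have a3 := Real.Gamma_pos_of_pos (show 0 < s / 2 by linarith)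
  have a4 := Real.Gamma_pos_of_pos (show 0 < 1 - s / 2 by linarith)
  have hG : 0 < Gs s := by unfold Gs; positivity
  have hG2 : 0 < Gs (s / 2) := by unfold Gs; positivity
  have hm : 1 < 1 / (2 * s) := by
    rw [lt_div_iff₀ (by positivity)]
    linarith
  have h1 := h (1 / (2 * s)) (r * Gs s) hm (by positivity) hP
  have e1 : 2 * (1 / (2 * s)) = 1 / s := by field_simp
  have e2 : 1 / (2 * (1 / (2 * s))) = s := by field_simp
  rw [e2, e1] at h1
  have e3 : r * Gs s * RB s s / Real.pi = r * Gs (s / 2) ^ 2 := by
    have := Real.pi_pos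
    unfold RB Gs
    rw [show 1 - (s + s) / 2 = 1 - s by ring, show (s + s) / 2 = s by ring]
    field_simp
  rw [e3, Real.sqrt_mul (by linarith), Real.sqrt_sq hG2.le] at h1
  exact h1

end Pool.Agent.H83PB.CDB
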